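import Pool.Agent.H75C.HY.NF

/-!
# The order of the tests is a partial order
-/

set_option autoImplicit false

namespace Pool.Agent.H75C.HY.NF

open Classical

theorem so_refl {α : Type} {r : α → α → Prop} (hr : ∀ a, r a a) (A : Finset α) : so r A A := by
  refine ⟨fun a => some a, fun a _ b hb => ?_, fun b hb => ⟨b, hb, rfl⟩⟩
  rw [← Option.some.inj hb]
  exact hr a

theorem so_trans {α : Type} {r : α → α → Prop} (ht : ∀ a b c, r a b → r b c → r a c)
    {A A' A'' : Finset α} (h : so r A A') (h' : so r A' A'') : so r A A'' := by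
  obtain ⟨f, f1, f2⟩ := h
  obtain ⟨g, g1, g2⟩ := h'
  refine ⟨fun a => (g a).bind fun a' => if a' ∈ A' then f a' else none, ?_, ?_⟩
  · intro a ha b hb
    rw [Option.bind_eq_some_iff] at hb
    obtain ⟨a', h1, h2⟩ := hb
    split_ifs at h2 with h3
    exact ht _ _ _ (f1 a' h3 b h2) (g1 a ha a' h1)
  · intro b hb
    obtain ⟨a', h1, h2⟩ := f2 b hb
    obtain ⟨a, h3, h4⟩ := g2 a' h1
    refine ⟨a, h3, ?_⟩
    rw [Option.bind_eq_some_iff]
    exact ⟨a', h4, by rw [if_pos h1, h2]⟩

theorem so_sum {α : Type} {r : α → α → Prop} {A A' : Finset α} (h : so r A A') (φ : α → ℕ)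
    (hφ : ∀ b ∈ A, ∀ a ∈ A', r b a → b ≠ a → φ b < φ a) :
    ∑ b ∈ A, φ b ≤ ∑ a ∈ A', φ a ∧ ((∃ b ∈ A, b ∉ A') → ∑ b ∈ A, φ b < ∑ a ∈ A', φ a) := by
  obtain ⟨h, h1, h2⟩ := h
  choose! f hf hfb using h2
  have hinj : Set.InjOn f A := by
    intro b hb c hc hbc
    have e1 := hfb b hb
    rw [hbc, hfb c hc] at e1
    exact (Option.some.inj e1).symm
  have hlt : ∀ b ∈ A, b ≠ f b → φ b < φ (f b) := fun b hb hne =>
    hφ b hb (f b) (hf b hb) (h1 _ (hf b hb) _ (hfb b hb)) hne
  have hle : ∀ b ∈ A, φ b ≤ φ (f b) := by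
    intro b hb
    by_cases hne : b = f b
    · exact le_of_eq (congrArg φ hne)
    · exact (hlt b hb hne).le
  have h3 : ∑ a ∈ A.image f, φ a = ∑ b ∈ A, φ (f b) := Finset.sum_image hinj
  have h4 : A.image f ⊆ A' := by
    intro a ha
    obtain ⟨b, hb, rfl⟩ := Finset.mem_image.1 ha
    exact hf b hb
  have h5 : ∑ a ∈ A.image f, φ a ≤ ∑ a ∈ A', φ a := Finset.sum_le_sum_of_subset h4
  rw [h3] at h5
  refine ⟨(Finset.sum_le_sum hle).trans h5, ?_⟩
  rintro ⟨b, hb, hbA⟩
  refine lt_of_lt_of_le (Finset.sum_lt_sum hle ⟨b, hb, hlt b hb ?_⟩) h5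
  intro hbf
  exact hbA (hbf ▸ hf b hb)

theorem so_antisymm {α : Type} {r : α → α → Prop} (hr : ∀ a, r a a)
    (ht : ∀ a b c, r a b → r b c → r a c) (ha : ∀ a b, r a b → r b a → a = b)
    {A A' : Finset α} (h : so r A A') (h' : so r A' A) : A = A' := by
  let φ : α → ℕ := fun a => ((A ∪ A').filter fun x => r x a).card
  have hφ : ∀ b ∈ A ∪ A', ∀ a ∈ A ∪ A', r b a → b ≠ a → φ b < φ a := by
    intro b _ a ha' hba hne
    apply Finset.card_lt_card
    rw [Finset.ssubset_iff_of_subset]
    · refine ⟨a, Finset.mem_filter.2 ⟨ha', hr a⟩, fun h => ?_⟩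
      exact hne (ha b a hba (Finset.mem_filter.1 h).2)
    · intro x hx
      rw [Finset.mem_filter] at hx ⊢
      exact ⟨hx.1, ht _ _ _ hx.2 hba⟩
  have e1 := so_sum h φ fun b hb a ha' => hφ b (Finset.mem_union_left _ hb) a
    (Finset.mem_union_right _ ha')
  have e2 := so_sum h' φ fun b hb a ha' => hφ b (Finset.mem_union_right _ hb) a
    (Finset.mem_union_left _ ha')
  apply Finset.Subset.antisymm
  · intro b hb
    by_contra hcon
    exact absurd (e1.2 ⟨b, hb, hcon⟩) (not_lt.2 e2.1)
  · intro b hb
    by_contra hcon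
    exact absurd (e2.2 ⟨b, hb, hcon⟩) (not_lt.2 e1.1)

theorem eo_refl {k : ℕ} {r : T k → T k → Prop} (hr : ∀ t, r t t) (a : E k) : eo r a a := by
  cases a with
  | inl x => exact rfl
  | inr t => exact hr t

theorem eo_trans {k : ℕ} {r : T k → T k → Prop} (ht : ∀ a b c, r a b → r b c → r a c)
    (a b c : E k) (h : eo r a b) (h' : eo r b c) : eo r a c := by
  cases a with
  | inl x =>
    cases b with
    | inl y =>
      have e : x = y := h
      rw [e]
      exact h'
    | inr t => exact h.elim
  | inr s =>
    cases b with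
    | inl y =>
      cases c with
      | inl z => exact trivial
      | inr u => exact h'.elim
    | inr t =>
      cases c with
      | inl z => exact trivial
      | inr u => exact ht _ _ _ h h'

theorem eo_antisymm {k : ℕ} {r : T k → T k → Prop} (ha : ∀ a b, r a b → r b a → a = b)
    (a b : E k) (h : eo r a b) (h' : eo r b a) : a = b := by
  cases a with
  | inl x =>
    cases b with
    | inl y => exact congrArg Sum.inl h
    | inr t => exact h.elim
  | inr s =>
    cases b with
    | inl y => exact h'.elim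
    | inr t => exact congrArg Sum.inr (ha _ _ h h')

theorem le_succ_iff {k : ℕ} (s t : T (k + 1)) : le (k + 1) s t ↔
    s = (Sum.inl none : Option ℕ ⊕ Finset (E k)) ∨ s = t ∨
      ∃ A A' : Finset (E k), s = (Sum.inr A : Option ℕ ⊕ Finset (E k)) ∧
        t = (Sum.inr A' : Option ℕ ⊕ Finset (E k)) ∧ so (eo (le k)) A A' := by
  change Option ℕ ⊕ Finset (E k) at s t
  cases s with
  | inl s =>
    cases t with
    | inl t =>
      show (_ ∨ _ ∨ False) ↔ _
      constructor
      · rintro (h | h | h)
        · exact Or.inl h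
        · exact Or.inr (Or.inl h)
        · exact h.elim
      · rintro (h | h | ⟨A, A', h, -, -⟩)
        · exact Or.inl h
        · exact Or.inr (Or.inl h)
        · exact absurd h (by simp)
    | inr t =>
      show (_ ∨ _ ∨ False) ↔ _
      constructor
      · rintro (h | h | h)
        · exact Or.inl h
        · exact Or.inr (Or.inl h)
        · exact h.elim
      · rintro (h | h | ⟨A, A', h, -, -⟩)
        · exact Or.inl h
        · exact Or.inr (Or.inl h)
        · exact absurd h (by simp)
  | inr s =>
    cases t with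
    | inl t =>
      show (_ ∨ _ ∨ False) ↔ _
      constructor
      · rintro (h | h | h)
        · exact Or.inl h
        · exact Or.inr (Or.inl h)
        · exact h.elim
      · rintro (h | h | ⟨A, A', -, h, -⟩)
        · exact Or.inl h
        · exact Or.inr (Or.inl h)
        · exact absurd h (by simp)
    | inr t =>
      show (_ ∨ _ ∨ so (eo (le k)) s t) ↔ _
      constructor
      · rintro (h | h | h)
        · exact Or.inl h
        · exact Or.inr (Or.inl h)
        · exact Or.inr (Or.inr ⟨s, t, rfl, rfl, h⟩)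
      · rintro (h | h | ⟨A, A', h1, h2, h⟩)
        · exact Or.inl h
        · exact Or.inr (Or.inl h)
        · have e1 : s = A := Sum.inr.inj h1
          have e2 : t = A' := Sum.inr.inj h2
          rw [e1, e2]
          exact Or.inr (Or.inr h)

/-- PIECE A2: the order of the tests is a partial order. -/
theorem a2 : A2 := by
  intro k
  induction k with
  | zero =>
    refine ⟨fun t => Or.inr rfl, ?_, ?_⟩
    · intro s t u h h'
      rcases h with h | h
      · exact Or.inl h
      · rw [h]; exact h'
    · intro s t h h'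
      rcases h with h | h
      · rcases h' with h' | h'
        · rw [h, h']
        · exact h'.symm
      · exact h
  | succ k ih =>
    obtain ⟨ih1, ih2, ih3⟩ := ih
    refine ⟨fun t => ?_, ?_, ?_⟩
    · rw [le_succ_iff]
      exact Or.inr (Or.inl rfl)
    · intro s t u h h'
      rw [le_succ_iff] at h
      rcases h with h | h | ⟨A, A', h1, h2, h⟩
      · rw [le_succ_iff]
        exact Or.inl h
      · rw [h]; exact h'
      · rw [le_succ_iff] at h'
        rcases h' with h' | h' | ⟨B, B', h3, h4, h'⟩
        · rw [h2] at h'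
          exact absurd h' (by simp)
        · rw [← h', le_succ_iff]
          exact Or.inr (Or.inr ⟨A, A', h1, h2, h⟩)
        · rw [h2] at h3
          have e : A' = B := Sum.inr.inj h3
          rw [← e] at h'
          rw [le_succ_iff]
          exact Or.inr (Or.inr ⟨A, B', h1, h4, so_trans (eo_trans ih2) h h'⟩)
    · intro s t h h'
      rw [le_succ_iff] at h h'
      rcases h with h | h | ⟨A, A', h1, h2, h⟩
      · rcases h' with h' | h' | ⟨B, B', h3, h4, h'⟩
        · rw [h, h']
        · exact h'.symm
        · rw [h] at h4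
          exact absurd h4 (by simp)
      · exact h
      · rcases h' with h' | h' | ⟨B, B', h3, h4, h'⟩
        · rw [h2] at h'
          exact absurd h' (by simp)
        · exact h'.symm
        · rw [h2] at h3
          rw [h1] at h4
          have e : A' = B := Sum.inr.inj h3
          have e' : A = B' := Sum.inr.inj h4
          rw [← e, ← e'] at h'
          rw [h1, h2, so_antisymm (eo_refl ih1) (eo_trans ih2) (eo_antisymm ih3) h h']

end Pool.Agent.H75C.HY.NF
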