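import Pool.Agent.H75C.HY.NFA

/-!
# Sums of items, monotonicity in the table, correctness of `cls`
-/

set_option autoImplicit false

namespace Pool.Agent.H75C.HY.NF

open Classical

/-! ### Part 1 -/

theorem tog_nodup {l : List It} (h : l.Nodup) (a : It) : (tog l a).Nodup := by
  unfold tog
  split_ifs with ha
  · exact h.filter _
  · exact List.nodup_cons.2 ⟨ha, h⟩

theorem mem_tog {l : List It} {a b : It} (h : b ∈ tog l a) : b ∈ l ∨ b = a := by
  unfold tog at h
  split_ifs at h with ha
  · exact Or.inl (List.mem_filter.1 h).1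
  · rcases List.mem_cons.1 h with h | h
    · exact Or.inr h
    · exact Or.inl h

theorem ISet_nil (τ : Bool) (Tb : Tab) (k : ℕ) : ISet τ Tb k [] = ∅ := rfl

theorem ISet_cons (τ : Bool) (Tb : Tab) (k : ℕ) (a : It) (l : List It) :
    ISet τ Tb k (a :: l) = symmDiff (isem τ Tb k a) (ISet τ Tb k l) := rfl

theorem sd_empty {k : ℕ} (A : Finset (E k)) : symmDiff A ∅ = A := by
  rw [← Finset.bot_eq_empty]
  exact symmDiff_bot A

theorem ISet_filter (τ : Bool) (Tb : Tab) (k : ℕ) (a : It) (l : List It) (h : l.Nodup)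
    (ha : a ∈ l) : ISet τ Tb k l =
      symmDiff (isem τ Tb k a) (ISet τ Tb k (l.filter fun b => decide (b ≠ a))) := by
  induction l with
  | nil => exact absurd ha List.not_mem_nil
  | cons b l ih =>
    obtain ⟨hb, hl⟩ := List.nodup_cons.1 h
    by_cases hba : b = a
    · have e1 : (b :: l).filter (fun c => decide (c ≠ a)) = l := by
        rw [List.filter_cons_of_neg (by simp [hba]), List.filter_eq_self]
        intro c hc
        have : c ≠ a := by
          rintro rfl
          exact hb (hba ▸ hc)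
        simp [this]
      rw [e1, ISet_cons, hba]
    · have ha' : a ∈ l := by
        rcases List.mem_cons.1 ha with h1 | h1
        · exact absurd h1.symm hba
        · exact h1
      have e1 : (b :: l).filter (fun c => decide (c ≠ a)) =
          b :: l.filter (fun c => decide (c ≠ a)) :=
        List.filter_cons_of_pos (by simp [hba])
      rw [e1, ISet_cons, ISet_cons, ih hl ha', symmDiff_left_comm]

theorem ISet_tog (τ : Bool) (Tb : Tab) (k : ℕ) (a : It) (l : List It) (h : l.Nodup) :
    ISet τ Tb k (tog l a) = symmDiff (ISet τ Tb k l) (isem τ Tb k a) := by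
  unfold tog
  split_ifs with ha
  · rw [ISet_filter τ Tb k a l h ha, symmDiff_comm (isem τ Tb k a), symmDiff_assoc, symmDiff_self,
      Finset.bot_eq_empty, sd_empty]
  · rw [ISet_cons, symmDiff_comm]

theorem b5_1 (τ : Bool) (Tb : Tab) (k : ℕ) (s s' : List It) (h : s.Nodup) :
    (xm s s').Nodup ∧ (∀ a ∈ xm s s', a ∈ s ∨ a ∈ s') ∧
      ISet τ Tb k (xm s s') = symmDiff (ISet τ Tb k s) (ISet τ Tb k s') := by
  induction s' generalizing s with
  | nil =>
    refine ⟨h, fun a ha => Or.inl ha, ?_⟩
    rw [ISet_nil, sd_empty]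
    rfl
  | cons b s' ih =>
    obtain ⟨h1, h2, h3⟩ := ih (tog s b) (tog_nodup h b)
    refine ⟨h1, fun a ha => ?_, ?_⟩
    · rcases h2 a ha with h4 | h4
      · rcases mem_tog h4 with h5 | h5
        · exact Or.inl h5
        · exact Or.inr (List.mem_cons.2 (Or.inl h5))
      · exact Or.inr (List.mem_cons.2 (Or.inr h4))
    · show ISet τ Tb k (xm (tog s b) s') = _
      rw [h3, ISet_tog τ Tb k b s h, ISet_cons, symmDiff_assoc]

/-! ### Part 2 -/

theorem look_pre {Tb Tb' : Tab} (h : Tb <+: Tb') {q : ℕ} (hq : ∃ e ∈ Tb, e.1 = q) :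
    look Tb' q = look Tb q := by
  obtain ⟨X, rfl⟩ := h
  obtain ⟨e, he, heq⟩ := hq
  unfold look
  rw [List.find?_append]
  cases hf : Tb.find? (fun e => decide (e.1 = q)) with
  | none =>
    rw [List.find?_eq_none] at hf
    exact absurd (decide_eq_true heq) (hf e he)
  | some e' => rfl

theorem b5_2 (τ : Bool) (Tb Tb' : Tab) (h : Tb <+: Tb') (k : ℕ) (a : It) (ha : vit Tb k a) :
    vit Tb' k a ∧ isem τ Tb' k a = isem τ Tb k a := by
  induction k generalizing a with
  | zero => exact ⟨ha, rfl⟩
  | succ k ih =>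
    rcases ha with ha | ha | ⟨h1, h2, h3⟩
    · refine ⟨Or.inl ha, ?_⟩
      have h6 : a.1 ≠ 6 := by omega
      show (if a.1 = 6 then _ else _) = (if a.1 = 6 then _ else _)
      rw [if_neg h6, if_neg h6]
    · refine ⟨Or.inr (Or.inl ha), ?_⟩
      have h6 : a.1 ≠ 6 := by rw [ha]; decide
      show (if a.1 = 6 then _ else _) = (if a.1 = 6 then _ else _)
      rw [if_neg h6, if_neg h6]
    · have hl := look_pre h h2
      refine ⟨Or.inr (Or.inr ⟨h1, ?_, ?_⟩), ?_⟩
      · obtain ⟨e, he, heq⟩ := h2
        exact ⟨e, h.subset he, heq⟩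
      · intro b hb
        rw [hl] at hb
        exact (ih b (h3 b hb)).1
      · show (if a.1 = 6 then dsup τ (((look Tb' a.2).map (isem τ Tb' k)).foldr symmDiff ∅) else _) =
          (if a.1 = 6 then dsup τ (((look Tb a.2).map (isem τ Tb k)).foldr symmDiff ∅) else _)
        rw [if_pos h1, if_pos h1, hl]
        congr 2
        exact List.map_congr_left fun b hb => (ih b (h3 b hb)).2

/-! ### Part 3 -/

theorem eqs_iff (s s' : List It) : eqs s s' = true ↔ ∀ a, a ∈ s ↔ a ∈ s' := by
  unfold eqs
  rw [Bool.and_eq_true, List.all_eq_true, List.all_eq_true]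
  constructor
  · rintro ⟨h1, h2⟩ a
    exact ⟨fun h => of_decide_eq_true (h1 a h), fun h => of_decide_eq_true (h2 a h)⟩
  · intro h
    exact ⟨fun a ha => decide_eq_true ((h a).1 ha), fun a ha => decide_eq_true ((h a).2 ha)⟩

theorem fnd_some {s : List It} {Tb : Tab} {q : ℕ} (h : fnd s Tb = some q) :
    ∃ e ∈ Tb, e.1 = q ∧ eqs e.2 s = true := by
  induction Tb with
  | nil => exact absurd h (by simp [fnd])
  | cons e Tb ih =>
    unfold fnd at h
    split_ifs at h with he
    · exact ⟨e, List.mem_cons_self, Option.some.inj h, he⟩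
    · obtain ⟨e', h1, h2⟩ := ih h
      exact ⟨e', List.mem_cons_of_mem _ h1, h2⟩

theorem fnd_none {s : List It} {Tb : Tab} (h : fnd s Tb = none) :
    ∀ e ∈ Tb, ¬ eqs e.2 s = true := by
  induction Tb with
  | nil => intro e he; exact absurd he List.not_mem_nil
  | cons e Tb ih =>
    unfold fnd at h
    split_ifs at h with he
    intro e' he'
    rcases List.mem_cons.1 he' with rfl | he'
    · exact he
    · exact ih h e' he'

theorem look_mem {Tb : Tab} (hnd : (Tb.map Prod.fst).Nodup) {e : ℕ × List It} (he : e ∈ Tb) :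
    look Tb e.1 = e.2 := by
  unfold look
  induction Tb with
  | nil => exact absurd he List.not_mem_nil
  | cons e' Tb ih =>
    rw [List.map_cons, List.nodup_cons] at hnd
    by_cases h : e'.1 = e.1
    · rw [List.find?_cons_of_pos (by simpa using h)]
      rcases List.mem_cons.1 he with rfl | he
      · rfl
      · exact absurd (List.mem_map.2 ⟨e, he, h.symm⟩) hnd.1
    · rw [List.find?_cons_of_neg (by simpa using h)]
      rcases List.mem_cons.1 he with rfl | he
      · exact absurd rfl h
      · exact ih hnd.2 he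

theorem ISet_perm (τ : Bool) (Tb : Tab) (k : ℕ) {s s' : List It} (h : s.Perm s') :
    ISet τ Tb k s = ISet τ Tb k s' := by
  induction h with
  | nil => rfl
  | cons a _ ih => rw [ISet_cons, ISet_cons, ih]
  | swap a b l => rw [ISet_cons, ISet_cons, ISet_cons, ISet_cons, symmDiff_left_comm]
  | trans _ _ ih1 ih2 => rw [ih1, ih2]

theorem ISet_single (τ : Bool) (Tb : Tab) (k : ℕ) (a : It) :
    ISet τ Tb k [a] = isem τ Tb k a := by
  rw [ISet_cons, ISet_nil, sd_empty]

theorem ISet_pre (τ : Bool) {Tb Tb' : Tab} (h : Tb <+: Tb') (k : ℕ) (s : List It)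
    (hs : ∀ a ∈ s, vit Tb k a) : ISet τ Tb' k s = ISet τ Tb k s := by
  unfold ISet
  congr 1
  exact List.map_congr_left fun b hb => (b5_2 τ Tb Tb' h k b (hs b hb)).2

theorem isem_six (τ : Bool) (Tb : Tab) (k q : ℕ) :
    isem τ Tb (k + 1) (6, q) = dsup τ (ISet τ Tb k (look Tb q)) := by
  show (if (6 : ℕ) = 6 then _ else _) = _
  rw [if_pos rfl]
  rfl

theorem isem_one (τ : Bool) (Tb : Tab) (k : ℕ) : isem τ Tb k (4, 0) = {Sum.inr (one k)} := by
  cases k with
  | zero => rfl
  | succ k => rfl

theorem dsup_empty (τ : Bool) {k : ℕ} : dsup τ (∅ : Finset (E k)) = ∅ := by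
  unfold dsup
  rw [Finset.powerset_empty, (Finset.erase_eq_empty_iff _ _).2 (Or.inr rfl), Finset.image_empty]

theorem dsup_one {k : ℕ} :
    dsup true ({Sum.inr (one k)} : Finset (E k)) = {Sum.inr (one (k + 1))} := by
  have e : ({Sum.inr (one k)} : Finset (E k)).powerset.erase ∅ = {{Sum.inr (one k)}} := by
    ext A
    rw [Finset.mem_erase, Finset.mem_powerset, Finset.mem_singleton, Finset.subset_singleton_iff]
    constructor
    · rintro ⟨h1, h2 | h2⟩
      · exact absurd h2 h1
      · exact h2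
    · intro h
      exact ⟨by rw [h]; exact Finset.singleton_ne_empty _, Or.inr h⟩
  unfold dsup
  rw [e, Finset.image_singleton]
  unfold tst'
  rw [if_pos ⟨rfl, rfl⟩]

theorem b5_3 (τ : Bool) (p : ℕ) (Tb : Tab) (s : List It) (hG : Good τ p Tb) (hs : s.Nodup) :
    Good τ (p + 1) (cls τ p Tb s).1 ∧ Tb <+: (cls τ p Tb s).1 ∧ (cls τ p Tb s).2.Nodup ∧
      ∀ k : ℕ, (∀ a ∈ s, vit Tb k a) →
        (∀ a ∈ (cls τ p Tb s).2, vit (cls τ p Tb s).1 (k + 1) a) ∧
          ISet τ (cls τ p Tb s).1 (k + 1) (cls τ p Tb s).2 = dsup τ (ISet τ Tb k s) := by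
  have hG1 : Good τ (p + 1) Tb := ⟨hG.nd, fun e he => (hG.lt e he).trans (Nat.lt_succ_self p), hG.ne,
    hG.nds, hG.no, hG.inj⟩
  by_cases h0 : s = []
  · have e : cls τ p Tb s = (Tb, []) := by unfold cls; rw [if_pos h0]
    rw [e]
    refine ⟨hG1, List.prefix_rfl, List.nodup_nil, fun k _ => ⟨fun a ha => ?_, ?_⟩⟩
    · exact absurd ha List.not_mem_nil
    · rw [h0, ISet_nil, ISet_nil, dsup_empty]
  by_cases h1 : τ = true ∧ s = [(4, 0)]
  · have e : cls τ p Tb s = (Tb, [(4, 0)]) := by unfold cls; rw [if_neg h0, if_pos h1]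
    rw [e]
    obtain ⟨rfl, rfl⟩ := h1
    refine ⟨hG1, List.prefix_rfl, hs, fun k _ => ⟨fun a ha => ?_, ?_⟩⟩
    · exact Or.inr (Or.inl (List.mem_singleton.1 ha))
    · rw [ISet_single, ISet_single, isem_one, isem_one, dsup_one]
  cases hf : fnd s Tb with
  | some q =>
    obtain ⟨e, he, heq, hes⟩ := fnd_some hf
    have hqp : min q p = q := by
      have := hG.lt e he
      omega
    have ec : cls τ p Tb s = (Tb, [(6, q)]) := by
      unfold cls
      rw [if_neg h0, if_neg h1, hf]
      show (Tb, [(6, min q p)]) = _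
      rw [hqp]
    rw [ec]
    have hlook : look Tb q = e.2 := by rw [← heq]; exact look_mem hG.nd he
    have hperm : e.2.Perm s := by
      rw [List.perm_ext_iff_of_nodup (hG.nds e he) hs]
      exact (eqs_iff _ _).1 hes
    refine ⟨hG1, List.prefix_rfl, List.nodup_singleton _, fun k hk => ⟨fun a ha => ?_, ?_⟩⟩
    · rw [List.mem_singleton.1 ha]
      refine Or.inr (Or.inr ⟨rfl, ⟨e, he, heq⟩, fun b hb => ?_⟩)
      rw [show ((6, q) : It).2 = q from rfl, hlook] at hb
      exact hk b (hperm.subset hb)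
    · rw [ISet_single, isem_six, hlook, ISet_perm τ Tb k hperm]
  | none =>
    have ec : cls τ p Tb s = (Tb ++ [(p, s)], [(6, p)]) := by
      unfold cls
      rw [if_neg h0, if_neg h1, hf]
    rw [ec]
    have hnd : ((Tb ++ [(p, s)]).map Prod.fst).Nodup := by
      rw [List.map_append, List.nodup_append]
      refine ⟨hG.nd, List.nodup_singleton _, ?_⟩
      intro a ha b hb
      obtain ⟨e, he, rfl⟩ := List.mem_map.1 ha
      have hb' : b = p := by simpa using hb
      have := hG.lt e he
      omega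
    have hpre : Tb <+: Tb ++ [(p, s)] := List.prefix_append _ _
    have hin : ((p, s) : ℕ × List It) ∈ Tb ++ [(p, s)] :=
      List.mem_append_right _ (List.mem_singleton.2 rfl)
    have hlook : look (Tb ++ [(p, s)]) p = s := look_mem hnd hin
    have hmem : ∀ e ∈ Tb ++ [(p, s)], e ∈ Tb ∨ e = (p, s) := by
      intro e he
      rcases List.mem_append.1 he with h | h
      · exact Or.inl h
      · exact Or.inr (List.mem_singleton.1 h)
    have hno : ∀ e ∈ Tb, e.2.toFinset ≠ s.toFinset := by
      intro e he heq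
      refine fnd_none hf e he ((eqs_iff _ _).2 fun a => ?_)
      rw [← List.mem_toFinset, heq, List.mem_toFinset]
    refine ⟨⟨hnd, ?_, ?_, ?_, ?_, ?_⟩, hpre, List.nodup_singleton _, fun k hk =>
      ⟨fun a ha => ?_, ?_⟩⟩
    · intro e he
      rcases hmem e he with h | rfl
      · exact (hG.lt e h).trans (Nat.lt_succ_self p)
      · exact Nat.lt_succ_self p
    · intro e he
      rcases hmem e he with h | rfl
      · exact hG.ne e h
      · exact h0
    · intro e he
      rcases hmem e he with h | rfl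
      · exact hG.nds e h
      · exact hs
    · intro hτ e he
      rcases hmem e he with h | rfl
      · exact hG.no hτ e h
      · exact fun h => h1 ⟨hτ, h⟩
    · intro e he e' he' hee
      rcases hmem e he with h | rfl
      · rcases hmem e' he' with h' | rfl
        · exact hG.inj e h e' h' hee
        · exact absurd hee (hno e h)
      · rcases hmem e' he' with h' | rfl
        · exact absurd hee.symm (hno e' h')
        · rfl
    · rw [List.mem_singleton.1 ha]
      refine Or.inr (Or.inr ⟨rfl, ⟨(p, s), hin, rfl⟩, fun b hb => ?_⟩)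
      rw [show ((6, p) : It).2 = p from rfl, hlook] at hb
      exact (b5_2 τ Tb _ hpre k b (hk b hb)).1
    · rw [ISet_single, isem_six, hlook, ISet_pre τ hpre k s hk]

/-- PIECE B5. -/
theorem b5 : B5 :=
  ⟨fun τ Tb k s s' h _ => b5_1 τ Tb k s s' h,
    fun τ _ Tb Tb' _ h k a ha => b5_2 τ Tb Tb' h k a ha,
    fun τ p Tb s hG hs => b5_3 τ p Tb s hG hs⟩

end Pool.Agent.H75C.HY.NF
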